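import Pool.Agent.R26.SolidCert

/-!
# A cubic solid brick with two disjoint odd cycles

Multigraphs are given by `ends : E → Sym2 V`; see `Pool/Agent/R26/MG.lean` for the definitions:
`MatchingCovered`, `cut`, `contract` (the contraction `G/X`), `Tight`, `Separating` (both contractions of
the cut are matching covered), `Brick`, `Solid`, `Cubic`, `OddIntercyclic`.

The counterexample has the twelve vertices `0, ..., 11` and the edges 03, 08, 0 10, 13, 14, 19, 23, 25,
29, 45, 4 11, 57, 67, 68, 6 11, 7 10, 89, 10 11; the odd cycles 0 3 1 9 8 and 4 5 7 10 11 are disjoint.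
-/

set_option autoImplicit false

namespace Pool.Agent.Results.MP_c2f3ae_co.SolidNotIntercyclic

open Pool.Agent.R26.MG

/-- Not every cubic solid brick is odd-intercyclic: some finite loopless cubic brick is solid and has no
nontrivial separating cut, but has two odd cycles without a common vertex. -/
theorem result : ∃ ends : Fin 18 → Sym2 (Fin 12),
    (∀ e, ¬ (ends e).IsDiag) ∧ Cubic ends ∧ Brick ends ∧ Solid ends ∧
      (∀ X : Set (Fin 12), Odd X.ncard → X.ncard ≠ 1 → Xᶜ.ncard ≠ 1 → ¬ Separating ends X) ∧
      ¬ OddIntercyclic ends := by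
  refine ⟨Pool.Agent.R26.SolidCert.gends, by decide, Pool.Agent.R26.SolidCert.cubic,
    Pool.Agent.R26.SolidCert.brick, Pool.Agent.R26.SolidCert.solid, ?_,
    Pool.Agent.R26.SolidCert.not_intercyclic⟩
  intro X h1 h2 h3 h4
  obtain ⟨e, he⟩ := Pool.Agent.R26.SolidCert.key X h1 h2 h3
  obtain ⟨M, hM, heM, hc⟩ := sep_imp _ X h4 e
  exact he M hM heM hc

end Pool.Agent.Results.MP_c2f3ae_co.SolidNotIntercyclic
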